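import Pool.Agent.H559.FL.Stm
import Pool.Agent.H559.IX.F0ec

set_option autoImplicit false

/-! # Floors: the final form -/

open Finset MeasureTheory ProbabilityTheory Filter Topology
open Pool.Agent.T2H32.BF (Model V V_pos V_anti V_ratio mertens)
open Pool.Agent.H559.IX

namespace Pool.Agent.H559.FL

/-- the admissible pairs of the problem -/
def AP (m n : ℕ) : Prop := 1 ≤ m ∧ 2 * m + 1 < n ∧ ((m = 1 ∧ Even n) ∨ (m = 3 ∧ n % 6 ≠ 1) ∨ m = 2 ∨ 4 ≤ m)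

/-- the two conjectures for a set `A`, all `m ≤ log log n` -/
def Q12 (C : ℕ) (A : Set ℕ) : Prop := ∀ᶠ n : ℕ in atTop, ∀ m : ℕ, AP m n → (m : ℝ) ≤ Real.log (Real.log n) →
  (∃ p ∈ A, p < n ∧ (n - p) / m ∈ A ∧ (((n - p) / m : ℕ) : ℝ) ≤ Real.log n ^ C ∧
    ∃ v ∈ A, cn A v = (n - p) / m ∧ (n - p) / m ≤ v ∧ v + 1 - (n - p) / m ∈ A) ∧
  (∀ u : ℕ, 2 * m * u ≤ n → ∃ p ∈ A, p < n ∧ u < (n - p) / m ∧ (((n - p) / m : ℕ) : ℝ) ≤ u + Real.log n ^ C ∧
    (n - p) / m ∈ A ∧ ((n - p) / m) ^ 2 - 2 ∈ A)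

theorem quot (n m r q : ℕ) (hr : r < m) (h : m * q < n - r) : (n - (n - r - m * q)) / m = q := by
  have e : n - (n - r - m * q) = r + m * q := by omega
  rw [e, Nat.add_mul_div_left _ _ (by omega), Nat.div_eq_of_lt hr, zero_add]

theorem fin (h1 : S_q1) (h2 : S_sym) (h3 : S_rr) (c : ℝ) (hc : 1 < c) : ∃ C : ℕ, ∀ z : ℕ → ℕ, Lim z →
    ∀ (Ω : Type) [MeasurableSpace Ω] (P : Measure Ω) (a : ℕ → Ω → ℕ), Model P a →
      ∀ᵐ ω ∂P, Q12 C (R0 z c (fun q => a q ω)) := by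
  classical
  obtain ⟨C0, hq1⟩ := h1 c hc
  obtain ⟨C1, hC1, hsym⟩ := h2 c hc
  refine ⟨2 * (C0 + C1), fun z hz Ω _ P a hP => ?_⟩
  filter_upwards [hq1 z hz Ω P a hP, hsym z hz Ω P a hP] with ω g1 g2
  have hlog := F0ec.log_atTop
  filter_upwards [F0ec.La_atTop.eventually g1, F0ec.La_atTop.eventually g2, F0ec.La_pow (C1 + 3), F0ec.La_le,
    hlog.eventually_ge_atTop 5, eventually_ge_atTop 20] with n g3 g4 g5 g6 g7 g8 m hAP hm
  obtain ⟨hm1, hmn, hcase⟩ := hAP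
  obtain ⟨r, hr, hcop, hev⟩ := h3 m n hm1 hmn (by
    intro h
    rcases hcase with h' | h' | h' | h'
    · exact h'.2
    · omega
    · omega
    · omega) (by
    intro h
    rcases hcase with h' | h' | h' | h'
    · omega
    · exact h'.2
    · omega
    · omega)
  have hΛ6 : 6 ≤ F0ec.La n := by
    unfold F0ec.La
    omega
  have hn0 : (0 : ℝ) < n := by exact_mod_cast (by omega : 0 < n)
  have hge := F0ec.La_ge n
  have hLup : ((F0ec.La n : ℕ) : ℝ) ≤ 2 * Real.log n + 6 := by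
    have h : ((⌊Real.log n⌋₊ : ℕ) : ℝ) ≤ Real.log n := Nat.floor_le (by linarith)
    unfold F0ec.La
    push_cast
    linarith
  set Λ := F0ec.La n with hΛ
  have hΛpos : (0 : ℝ) < Λ := by exact_mod_cast (by omega : 0 < Λ)
  have hmΛ : (m : ℝ) ≤ Real.log Λ := hm.trans (Real.log_le_log (by linarith) (by linarith))
  have hmΛ2 : m ≤ Λ := by
    have h5 : (m : ℝ) ≤ Λ := hmΛ.trans (Real.log_le_self (by linarith))
    exact_mod_cast h5
  have hT1 : n ≤ 2 * (n - r) := by omega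
  have hTn : ((n - r : ℕ) : ℝ) ≤ n := by exact_mod_cast Nat.sub_le n r
  have hexpn : (n : ℝ) ≤ Real.exp Λ := by
    calc (n : ℝ) = Real.exp (Real.log n) := (Real.exp_log hn0).symm
      _ ≤ Real.exp Λ := Real.exp_le_exp.2 (by linarith)
  have hexp2 : Real.exp Λ ≤ Real.exp ((Λ : ℝ) ^ 2) := by
    refine Real.exp_le_exp.2 ?_
    have : (1 : ℝ) ≤ Λ := by exact_mod_cast (by omega : 1 ≤ Λ)
    nlinarith
  have hlow : Real.exp ((Λ : ℝ) / 4) ≤ ((n - r : ℕ) : ℝ) := by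
    have h5 : (n : ℝ) ≤ 2 * ((n - r : ℕ) : ℝ) := by exact_mod_cast hT1
    have h6 : (n : ℝ) / 2 ≤ ((n - r : ℕ) : ℝ) := by linarith
    have h7 : Real.exp ((Λ : ℝ) / 4) ≤ (n : ℝ) / 2 := by
      rw [← Real.exp_log (show (0 : ℝ) < (n : ℝ) / 2 by positivity)]
      refine Real.exp_le_exp.2 ?_
      rw [Real.log_div hn0.ne' (by norm_num)]
      have := Real.log_two_lt_d9
      linarith
    exact h7.trans h6
  have hpow : ∀ k : ℕ, k ≤ C0 + C1 → ((Λ ^ k : ℕ) : ℝ) ≤ Real.log n ^ (2 * (C0 + C1)) := by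
    intro k hk
    push_cast
    calc (Λ : ℝ) ^ k ≤ (Real.log n ^ 2) ^ k := pow_le_pow_left₀ hΛpos.le g6 k
      _ = Real.log n ^ (2 * k) := by rw [← pow_mul]
      _ ≤ Real.log n ^ (2 * (C0 + C1)) := pow_le_pow_right₀ (by linarith) (by omega)
  constructor
  · obtain ⟨q, v, a1, a2, a3, a4, a5, a6, a7, a8⟩ := g3 m (n - r) hm1 hmΛ hlow (hTn.trans hexpn) hcop hev
    have e := quot n m r q hr a3
    have hq3 : 3 ≤ q := a1.1
    refine ⟨n - r - m * q, a4, ?_, ?_⟩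
    · have : 1 * 3 ≤ m * q := Nat.mul_le_mul hm1 hq3
      omega
    · rw [e]
      refine ⟨a1, ?_, v, a5, a6, a7, a8⟩
      exact (by exact_mod_cast a2 : (q : ℝ) ≤ ((Λ ^ C0 : ℕ) : ℝ)).trans (hpow C0 (by omega))
  · intro u hu
    have hu1 : u ≤ n := by nlinarith
    have hbd : m * (u + Λ ^ C1) ≤ n - r := by
      have h5 : m * Λ ^ C1 ≤ Λ * Λ ^ C1 := Nat.mul_le_mul_right _ hmΛ2
      have h6 : Λ * Λ ^ C1 = Λ ^ (C1 + 1) := by rw [pow_succ, mul_comm]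
      have h7 : Λ ^ (C1 + 3) = Λ ^ (C1 + 1) * (Λ * Λ) := by ring
      have h8 : Λ ≤ Λ ^ (C1 + 1) := Nat.le_self_pow (by omega) Λ
      have h9 : Λ ^ (C1 + 1) * 36 ≤ Λ ^ (C1 + 1) * (Λ * Λ) := Nat.mul_le_mul_left _ (by nlinarith)
      have h10 : m * (u + Λ ^ C1) = m * u + m * Λ ^ C1 := by ring
      have h11 : 2 * (m * u) ≤ n := by rw [← mul_assoc]; exact hu
      omega
    have hub : (u : ℝ) ≤ Real.exp ((Λ : ℝ) ^ 2) := by
      have : (u : ℝ) ≤ n := by exact_mod_cast hu1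
      linarith
    obtain ⟨v, b1, b2, b3, b4, b5⟩ := g4 u m (n - r) hub hm1 hmΛ (by linarith) hcop hev hbd
    have hT3 : 3 ≤ n - r - m * v := b4.1
    have e := quot n m r v hr (by omega)
    have hv3 : 3 ≤ v := b1.1
    refine ⟨n - r - m * v, b4, ?_, ?_⟩
    · have : 1 * 3 ≤ m * v := Nat.mul_le_mul hm1 hv3
      omega
    · rw [e]
      refine ⟨b2, ?_, b1, b5⟩
      have h5 : (v : ℝ) ≤ ((u + Λ ^ C1 : ℕ) : ℝ) := by exact_mod_cast b3
      rw [Nat.cast_add] at h5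
      have := hpow C1 (by omega)
      linarith

end Pool.Agent.H559.FL
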