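import Pool.Agent.H559.FL.Stm

set_option autoImplicit false

/-! # Floors: the hypotheses of the window theorem (by helper746) -/

open Finset MeasureTheory ProbabilityTheory Filter Topology
open Pool.Agent.T2H32.BF (Model V V_pos V_anti V_ratio mertens)
open Pool.Agent.H559.IX

namespace Pool.Agent.H559.FL

namespace Hyp

theorem mem_YY (A K Λ x : ℕ) (y : ℕ × ℕ × ℕ) : y ∈ YY A K Λ x ↔
    Λ ^ K ≤ x ∧ y.1 ≤ x ∧ y.2.1 ≤ ⌊Real.exp Λ⌋₊ ∧ y.2.2 ≤ Λ ∧ x ^ 2 ≤ y.1 ^ 3 ∧ 2 * y.1 ≤ x ∧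
      y.2.2 * (y.1 + 3 * Λ ^ A) + x + Λ ^ A < y.2.1 := by
  unfold YY
  split_ifs with h
  · simp only [mem_filter, mem_product, mem_range]
    constructor
    · rintro ⟨⟨h1, h2, h3⟩, h4⟩
      exact ⟨h, by omega, by omega, by omega, h4⟩
    · rintro ⟨_, h1, h2, h3, h4⟩
      exact ⟨⟨by omega, by omega, by omega⟩, h4⟩
  · simp only [notMem_empty, false_iff]
    rintro ⟨h1, _⟩
    exact h h1

theorem YY_card (A K Λ x : ℕ) :
    (YY A K Λ x).card ≤ (x + 1) * ((⌊Real.exp Λ⌋₊ + 1) * (Λ + 1)) := by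
  unfold YY
  split_ifs with h
  · refine (card_filter_le _ _).trans ?_
    rw [card_product, card_product, card_range, card_range, card_range]
  · rw [card_empty]
    exact Nat.zero_le _

/-- the number of the choices -/
theorem num_card (Λ : ℕ) (h : 6 ≤ Λ) :
    (Real.exp Λ + 1) * ((Real.exp Λ + 1) * ((Λ : ℝ) + 1)) ≤ Real.exp ((4 : ℕ) * Λ) := by
  have h0 : (6 : ℝ) ≤ Λ := by exact_mod_cast h
  have h1 : (Λ : ℝ) + 1 ≤ Real.exp Λ := Real.add_one_le_exp (Λ : ℝ)
  have h4 : Real.exp ((4 : ℕ) * Λ) = Real.exp Λ * Real.exp Λ * Real.exp Λ * Real.exp Λ := by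
    rw [← Real.exp_add, ← Real.exp_add, ← Real.exp_add]
    congr 1
    push_cast
    ring
  rw [h4]
  set E := Real.exp (Λ : ℝ) with hE
  have hE7 : 7 ≤ E := by linarith
  have h5 : (E + 1) * (E + 1) ≤ E * E * E := by nlinarith [mul_nonneg (show (0:ℝ) ≤ E by linarith) (show (0:ℝ) ≤ E by linarith), mul_nonneg (mul_nonneg (show (0:ℝ) ≤ E by linarith) (show (0:ℝ) ≤ E by linarith)) (show (0 : ℝ) ≤ E - 7 by linarith)]
  have h6 : (E + 1) * ((E + 1) * ((Λ : ℝ) + 1)) = ((E + 1) * (E + 1)) * ((Λ : ℝ) + 1) := by ring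
  rw [h6]
  exact mul_le_mul h5 h1 (by linarith) (by positivity)

theorem exp_sq (Λ : ℕ) (h : 2 ≤ Λ) (v : ℝ) (hv : v ≤ Real.exp Λ) :
    v ≤ Real.exp ((Λ : ℝ) ^ 2) := by
  have hΛ : (2 : ℝ) ≤ Λ := by exact_mod_cast h
  refine hv.trans (Real.exp_le_exp.mpr ?_)
  nlinarith

end Hyp

open Hyp in
theorem t_hyp : S_hyp := by
  intro A K κ hA hK
  filter_upwards [eventually_ge_atTop 16] with Λ h3
  intro x _ hx
  have hΛ : (16 : ℝ) ≤ Λ := by exact_mod_cast h3
  refine ⟨?_, ?_⟩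
  · have hfl : ((⌊Real.exp Λ⌋₊ : ℕ) : ℝ) ≤ Real.exp Λ := Nat.floor_le (Real.exp_pos _).le
    have e1 : ((YY A K Λ x).card : ℝ) ≤
        ((x : ℝ) + 1) * (((⌊Real.exp Λ⌋₊ : ℕ) + 1) * ((Λ : ℝ) + 1)) := by
      exact_mod_cast YY_card A K Λ x
    refine e1.trans (le_trans ?_ (num_card Λ (by omega)))
    have e2 : (0 : ℝ) ≤ Real.exp Λ := (Real.exp_pos _).le
    gcongr
  · intro y hy
    rw [mem_YY] at hy
    obtain ⟨y1, y2, y3, y4, y5, y6, y7⟩ := hy
    have p0 : 16 ≤ Λ ^ A := by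
      have h5 : Λ ^ 1 ≤ Λ ^ A := Nat.pow_le_pow_right (by omega) (by omega)
      rw [pow_one] at h5
      omega
    have p1 : 16 * Λ ^ A ≤ Λ ^ (A + 1) := by
      rw [pow_succ, mul_comm]
      exact Nat.mul_le_mul_left _ h3
    have p2 : Λ ^ (A + 1) ≤ Λ ^ K := Nat.pow_le_pow_right (by omega) (by omega)
    have p3 : Λ ^ (A + 1) ≤ Λ ^ (3 * A) := Nat.pow_le_pow_right (by omega) (by omega)
    have hN : Λ ^ (A + 1) ≤ y.1 := by
      by_contra hcon
      have h5 : y.1 < Λ ^ (A + 1) := by omega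
      have h6 : y.1 ^ 3 < (Λ ^ (A + 1)) ^ 3 := Nat.pow_lt_pow_left h5 (by norm_num)
      have h7 : (Λ ^ (A + 1)) ^ 3 ≤ (Λ ^ K) ^ 2 := by
        rw [← pow_mul, ← pow_mul]
        exact Nat.pow_le_pow_right (by omega) (by omega)
      have h8 : (Λ ^ K) ^ 2 ≤ x ^ 2 := Nat.pow_le_pow_left y1 2
      omega
    set L := Λ ^ A with hL
    set L' := Λ ^ (A + 1) with hL'
    refine ⟨?_, ?_⟩
    · unfold GG
      rw [← hL]
      refine (card_union_le _ _).trans ?_
      have c1 := card_union_le (Icc y.1 (y.1 + 3 * L))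
        ((Icc y.1 (y.1 + 3 * L)).image (fun q => y.2.1 - y.2.2 * q))
      have c2 := card_image_le (s := Icc y.1 (y.1 + 3 * L)) (f := fun q => y.2.1 - y.2.2 * q)
      rw [Nat.card_Icc] at c1 c2 ⊢
      omega
    · intro v hv
      unfold GG at hv
      rw [← hL] at hv
      rw [mem_union, mem_union, mem_image] at hv
      rcases hv with (hv | ⟨q, hq, hv⟩) | hv
      · rw [mem_Icc] at hv
        have hvx : v ≤ x := by omega
        refine ⟨?_, ?_, Or.inl hvx⟩
        · have h5 : y.1 ^ 3 ≤ v ^ 3 := Nat.pow_le_pow_left hv.1 3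
          have h6 : x ≤ x ^ 2 := Nat.le_self_pow (by norm_num) x
          have h7 : v ^ 3 ≤ v ^ 4 := Nat.pow_le_pow_right (by omega) (by omega)
          omega
        · exact exp_sq Λ (by omega) _ (le_trans (by exact_mod_cast hvx) hx)
      · rw [mem_Icc] at hq
        have h5 : y.2.2 * q ≤ y.2.2 * (y.1 + 3 * L) := Nat.mul_le_mul_left _ hq.2
        have h6 : x + L < v := by omega
        refine ⟨?_, ?_, Or.inr h6⟩
        · have h7 : v ≤ v ^ 4 := Nat.le_self_pow (by norm_num) v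
          omega
        · refine exp_sq Λ (by omega) _ ?_
          have h7 : v ≤ ⌊Real.exp Λ⌋₊ := by omega
          exact le_trans (by exact_mod_cast h7) (Nat.floor_le (Real.exp_pos _).le)
      · rw [mem_Icc] at hv
        have hvx : v ≤ x := by omega
        refine ⟨?_, ?_, Or.inl hvx⟩
        · have h5 : x ≤ 4 * v := by omega
          have h6 : 16 ≤ v := by omega
          have h7 : 16 * v ≤ v ^ 2 := by rw [pow_two]; exact Nat.mul_le_mul_right _ h6
          have h8 : v ^ 2 ≤ v ^ 4 := Nat.pow_le_pow_right (by omega) (by omega)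
          omega
        · exact exp_sq Λ (by omega) _ (le_trans (by exact_mod_cast hvx) hx)

end Pool.Agent.H559.FL
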