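import Pool.Agent.H559.FL.Stm
import Pool.Agent.H559.IX.F0ec

set_option autoImplicit false

/-! # Floors: the page theorem from the window theorem (by helper264) -/

open Finset MeasureTheory ProbabilityTheory Filter Topology
open Pool.Agent.T2H32.BF (Model V V_pos V_anti V_ratio mertens)
open Pool.Agent.H559.IX

namespace Pool.Agent.H559.FL

namespace Q1

theorem mem_YY (A K Λ x : ℕ) (y : ℕ × ℕ × ℕ) (h1 : Λ ^ K ≤ x) (h2 : y.1 ≤ x)
    (h3 : (y.2.1 : ℝ) ≤ Real.exp Λ) (h4 : y.2.2 ≤ Λ) (h5 : x ^ 2 ≤ y.1 ^ 3) (h6 : 2 * y.1 ≤ x)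
    (h7 : y.2.2 * (y.1 + 3 * Λ ^ A) + x + Λ ^ A < y.2.1) : y ∈ YY A K Λ x := by
  unfold YY
  rw [if_pos h1, mem_filter, mem_product, mem_product, mem_range, mem_range, mem_range]
  have h8 : y.2.1 ≤ ⌊Real.exp Λ⌋₊ := Nat.le_floor h3
  exact ⟨⟨by omega, by omega, by omega⟩, h5, h6, h7⟩

theorem pow_exp (k : ℕ) : ∀ᶠ Λ : ℕ in atTop, (Λ : ℝ) ^ k < Real.exp ((Λ : ℝ) / 4) := by
  have h := (isLittleO_pow_exp_pos_mul_atTop (k := k) (b := 1 / 4) (by norm_num)).bound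
    (c := 1 / 2) (by norm_num)
  have h' := tendsto_natCast_atTop_atTop (R := ℝ) |>.eventually h
  filter_upwards [h'] with Λ h1
  rw [Real.norm_eq_abs, Real.norm_eq_abs, abs_of_nonneg (pow_nonneg (Nat.cast_nonneg _) _),
    abs_of_pos (Real.exp_pos _)] at h1
  have e : 1 / 4 * (Λ : ℝ) = (Λ : ℝ) / 4 := by ring
  rw [e] at h1
  have h2 := Real.exp_pos ((Λ : ℝ) / 4)
  linarith

end Q1

open Classical in
theorem t_q1 (hm : Pool.Agent.H559.IX.S_master) (hs : Pool.Agent.H559.IX.S_sys)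
    (he : Pool.Agent.H559.IX.S_elem) (hy : S_sym) (hh : S_hyp) : S_q1 := by
  intro c hc
  obtain ⟨C0, hC0, hS⟩ := hs c hc
  obtain ⟨C1, hC1, hSy⟩ := hy c hc
  obtain ⟨A1, hM⟩ := hm c hc 4 (max C0 C1 + 1)
  obtain ⟨A, hA1, hA2⟩ : ∃ A, A1 ≤ A ∧ C0 + C1 + 5 ≤ A :=
    ⟨max A1 (C0 + C1 + 5), le_max_left _ _, le_max_right _ _⟩
  obtain ⟨κ, hM⟩ := hM A hA1
  obtain ⟨K, hK1, hK2⟩ : ∃ K, κ ≤ K ∧ 3 * A + 6 ≤ K :=
    ⟨max κ (3 * A + 6), le_max_left _ _, le_max_right _ _⟩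
  refine ⟨K + 1, ?_⟩
  intro z hz Ω _ P a hP
  obtain ⟨-, hE⟩ := he c hc z hz
  have hhyp := hh A K κ (by omega) hK2
  have hMM := hM z hz 1 (Or.inl rfl) (ℕ × ℕ × ℕ) (YY A K) (fun Λ x y => GG A Λ x y)
    (fun _ _ y _ V J v => GR y V J v)
    (by
      filter_upwards [hhyp] with Λ h x hx1 hx2
      obtain ⟨h1, h2⟩ := h x hx1 hx2
      refine ⟨h1, fun y hy => ?_⟩
      obtain ⟨h3, h4⟩ := h2 y hy
      exact ⟨h3, h4, fun _ _ _ _ _ _ => Iff.rfl⟩) Ω P a hP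
  filter_upwards [hMM, hS z hz Ω P a hP, hE Ω P a hP, hSy z hz Ω P a hP] with ω h1 h2 h3 h4
  obtain ⟨h3a, -, h3c⟩ := h3
  obtain ⟨X0, hX0⟩ := eventually_atTop.mp h3a
  obtain ⟨X1, hX1⟩ := eventually_atTop.mp h3c
  filter_upwards [h1, h2, h4, Q1.pow_exp (K + 2), eventually_ge_atTop X0,
    eventually_ge_atTop (X1 ^ 3), eventually_ge_atTop 8]
    with Λ g1 g2 g4 g5 g6 g7 g8
  intro m T hm1 hm2 hT1 hT2 hcop hev
  obtain ⟨R, hR⟩ : ∃ R, R = R0 z c (fun q => a q ω) := ⟨_, rfl⟩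
  rw [← hR] at g1 g2 g4 hX0 hX1 ⊢
  obtain ⟨A0, hA0⟩ : ∃ A0, A0 = max C0 C1 + 1 := ⟨_, rfl⟩
  rw [← hA0] at g1
  have hA0a : C0 ≤ A0 := by
    have := le_max_left C0 C1
    omega
  have hA0b : C1 ≤ A0 := by
    have := le_max_right C0 C1
    omega
  have hA0c : A0 ≤ A := by
    have : max C0 C1 ≤ C0 + C1 := max_le (Nat.le_add_right _ _) (Nat.le_add_left _ _)
    omega
  -- powers
  have p1 : 8 * Λ ^ A ≤ Λ ^ (A + 1) := by
    rw [pow_succ, mul_comm]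
    exact Nat.mul_le_mul_left _ g8
  have p2 : Λ ^ (A + 1) ≤ Λ ^ K := Nat.pow_le_pow_right (by omega) (by omega)
  have p3 : 8 * Λ ^ K ≤ Λ ^ (K + 1) := by
    rw [pow_succ, mul_comm]
    exact Nat.mul_le_mul_left _ g8
  have p4 : Λ ^ C0 ≤ Λ ^ A0 := Nat.pow_le_pow_right (by omega) hA0a
  have p5 : Λ ^ C1 ≤ Λ ^ A0 := Nat.pow_le_pow_right (by omega) hA0b
  have p6 : Λ ^ A0 ≤ Λ ^ A := Nat.pow_le_pow_right (by omega) hA0c
  have p7 : Λ ^ κ ≤ Λ ^ K := Nat.pow_le_pow_right (by omega) hK1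
  have p8 : 1 ≤ Λ ^ A := Nat.one_le_pow _ _ (by omega)
  have p9 : Λ ≤ Λ ^ K := Nat.le_self_pow (by omega) Λ
  have p10 : 8 * Λ ^ (K + 1) ≤ Λ ^ (K + 2) := by
    rw [pow_succ Λ (K + 1), mul_comm]
    exact Nat.mul_le_mul_left _ g8
  have hΛ1 : (1 : ℝ) ≤ Λ := by
    have : 1 ≤ Λ := by omega
    exact_mod_cast this
  have hTbig : Λ ^ (K + 2) < T := by
    have e1 : (Λ : ℝ) ^ (K + 2) < T := lt_of_lt_of_le g5 hT1
    exact_mod_cast e1
  obtain ⟨x, hx⟩ : ∃ x, x = Λ ^ K := ⟨_, rfl⟩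
  obtain ⟨N, hN⟩ : ∃ N, N = cn R x := ⟨_, rfl⟩
  have hxe : (x : ℝ) ≤ Real.exp Λ := by
    have e1 : (x : ℝ) ≤ T := by
      have : x ≤ T := by omega
      exact_mod_cast this
    exact e1.trans hT2
  have hbig : ∀ w : ℕ, w ≤ 2 * x → (w : ℝ) ≤ Real.exp ((Λ : ℝ) ^ 2) := by
    intro w hw
    have e1 : (w : ℝ) ≤ 2 * x := by exact_mod_cast hw
    have e2 := F0ec.two_exp Λ (by omega)
    linarith
  have hTe : (T : ℝ) ≤ Real.exp ((Λ : ℝ) ^ 2) := by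
    refine hT2.trans (Real.exp_le_exp.mpr ?_)
    nlinarith
  obtain ⟨q1, q2⟩ := hX0 x (by omega)
  rw [← hN] at q1 q2
  have hNX : X1 ≤ N := by
    by_contra hcon
    have e1 : N ^ 3 < X1 ^ 3 := Nat.pow_lt_pow_left (by omega) (by norm_num)
    have e2 : x ≤ x ^ 2 := Nat.le_self_pow (by norm_num) x
    omega
  have hmΛ : m ≤ Λ := by
    have e1 : (m : ℝ) ≤ Λ := hm2.trans (Real.log_le_self (by linarith))
    exact_mod_cast e1
  have hmN : m * (N + 3 * Λ ^ A) + x + Λ ^ A < T := by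
    have e1 : m * (N + 3 * Λ ^ A) ≤ Λ * (2 * Λ ^ K) := Nat.mul_le_mul hmΛ (by omega)
    have e2 : Λ * (2 * Λ ^ K) = 2 * Λ ^ (K + 1) := by ring
    omega
  have hyY : ((N, T, m) : ℕ × ℕ × ℕ) ∈ YY A K Λ x := by
    refine Q1.mem_YY A K Λ x (N, T, m) (by omega) ?_ hT2 hmΛ q2 q1 hmN
    show N ≤ x
    omega
  have hex := g1 x (by omega) hxe (N, T, m) hyY
  obtain ⟨v, hvR, hv1, hv2, -, hG1, hG2, hG3⟩ := hex (by
    intro u j0 hu1 hu2 hj0
    have hmu : m * (N + j0 + Λ ^ C1) ≤ T := by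
      have e1 : m * (N + j0 + Λ ^ C1) ≤ m * (N + 3 * Λ ^ A) := Nat.mul_le_mul_left _ (by omega)
      omega
    obtain ⟨q, hqR, hq1, hq2, hq3, -⟩ := g4 (N + j0) m T (hbig _ (by omega)) hm1 hm2 hTe hcop hev hmu
    have hq6 := hX1 q (by omega) hqR
    have hHe : Even (q - 1) := by
      rw [Nat.even_iff]
      omega
    obtain ⟨s1, -, -⟩ := g2 (u - (q - 1)) (hbig _ (by omega))
    obtain ⟨v', hvR', hv1', hv2', hv3'⟩ := s1 (q - 1) (hbig _ (by omega)) hHe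
    refine ⟨v' + (q - 1), hv3', by omega, by omega, fun h => absurd h (by norm_num), ?_⟩
    refine ⟨q - N - 1, by omega, by omega, ?_⟩
    have e1 : N + (q - N - 1) + 1 = q := by omega
    have e2 : v' + (q - 1) + 1 - q = v' := by omega
    have hqI : q ∈ Icc N (N + 3 * Λ ^ A) := by
      rw [mem_Icc]
      omega
    refine ⟨?_, ?_, ?_⟩
    · show N + (q - N - 1) + 1 ∈ _
      rw [e1, mem_filter]
      refine ⟨?_, hqR⟩
      exact mem_union_left _ (mem_union_left _ hqI)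
    · show T - m * (N + (q - N - 1) + 1) ∈ _
      rw [e1, mem_filter]
      refine ⟨?_, hq3⟩
      exact mem_union_left _ (mem_union_right _ (mem_image.mpr ⟨q, hqI, rfl⟩))
    · show v' + (q - 1) + 1 - (N + (q - N - 1) + 1) ∈ _
      rw [e1, e2, mem_filter]
      refine ⟨?_, hvR'⟩
      refine mem_union_right _ ?_
      show v' ∈ Icc (x + 1 - N - 3 * Λ ^ A) (x + Λ ^ A + 1 - N)
      rw [mem_Icc]
      omega)
  have hcn := F0ec.cn_add R x v hv1 hvR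
  rw [← hN] at hcn
  have hJ : ((Ioo x v).filter (fun u => u ∈ R)).card ≤ Λ ^ A := by
    refine (card_filter_le _ _).trans ?_
    rw [Nat.card_Ioo]
    omega
  have hG1' := (mem_filter.mp hG1).2
  have hG2' := (mem_filter.mp hG2).2
  have hG3' := (mem_filter.mp hG3).2
  change N + ((Ioo x v).filter (fun u => u ∈ R)).card + 1 ∈ R at hG1'
  change T - m * (N + ((Ioo x v).filter (fun u => u ∈ R)).card + 1) ∈ R at hG2'
  change v + 1 - (N + ((Ioo x v).filter (fun u => u ∈ R)).card + 1) ∈ R at hG3'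
  rw [← hcn] at hG1' hG2' hG3'
  have hle := F0ec.cn_le R v
  have hqN : cn R v ≤ N + 3 * Λ ^ A := by omega
  refine ⟨cn R v, v, hG1', by omega, ?_, hG2', hvR, rfl, hle, hG3'⟩
  have e1 : m * cn R v ≤ m * (N + 3 * Λ ^ A) := Nat.mul_le_mul_left _ hqN
  omega

end Pool.Agent.H559.FL
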