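import Pool.Agent.H559.FL.Stm

set_option autoImplicit false

/-! # The choice of the remainder -/

namespace Pool.Agent.H559.FL

namespace Rr

theorem cop_add (m n r k c : ℕ) (h : n = r + (c + m * k)) (hc : Nat.Coprime c m) :
    Nat.Coprime (n - r) m := by
  have e : n - r = c + m * k := by omega
  rw [e]
  exact (Nat.coprime_add_mul_left_left c m k).2 hc

theorem two_cop {m : ℕ} (h : Odd m) : Nat.Coprime 2 m := Nat.coprime_two_left.2 h

theorem cop_sub (m n k : ℕ) (h : n - 3 + 2 = m * k) (hm : Odd m) : Nat.Coprime (n - 3) m := by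
  have h1 : Nat.gcd (n - 3) m ∣ m * k := (Nat.gcd_dvd_right _ _).mul_right k
  rw [← h] at h1
  have h2 : Nat.gcd (n - 3) m ∣ 2 := (Nat.dvd_add_right (Nat.gcd_dvd_left _ _)).1 h1
  have h3 := Nat.dvd_gcd h2 (Nat.gcd_dvd_right (n - 3) m)
  rw [Nat.Coprime.gcd_eq_one (two_cop hm)] at h3
  exact Nat.dvd_one.1 h3

end Rr

open Rr in
theorem t_rr : S_rr := by
  intro m n hm hn h1 h3
  have hdm := Nat.div_add_mod (n - 1) m
  have hlt := Nat.mod_lt (n - 1) (show 0 < m by omega)
  set r := (n - 1) % m with hr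
  set k := (n - 1) / m with hk
  have e1 : n = r + (1 + m * k) := by omega
  have c1 : Nat.Coprime (n - r) m := cop_add m n r k 1 e1 (Nat.coprime_one_left m)
  by_cases hodd : Odd m
  · by_cases hev : Even (n - r)
    · exact ⟨r, hlt, c1, fun _ => hev⟩
    · rcases Nat.eq_zero_or_pos r with h0 | hpos
      · -- `n` is odd and `n ≡ 1`
        have hn1 : ¬ Even n := by
          rwa [h0, Nat.sub_zero] at hev
        obtain ⟨j, hj⟩ := hodd
        have hm1 : m ≠ 1 := fun h => hn1 (h1 h)
        have hm3 : m ≠ 3 := by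
          intro h
          apply h3 h
          have hn2 : n % 2 = 1 := Nat.odd_iff.1 (Nat.not_even_iff_odd.1 hn1)
          rw [h, h0] at e1
          omega
        have hm5 : 5 ≤ m := by omega
        refine ⟨3, by omega, ?_, fun _ => ?_⟩
        · exact cop_sub m n k (by omega) ⟨j, hj⟩
        · have hn2 : n % 2 = 1 := Nat.odd_iff.1 (Nat.not_even_iff_odd.1 hn1)
          rw [Nat.even_iff]
          omega
      · refine ⟨r - 1, by omega, ?_, fun _ => ?_⟩
        · exact cop_add m n (r - 1) k 2 (by omega) (two_cop hodd)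
        · rw [Nat.even_iff] at hev ⊢
          omega
  · exact ⟨r, hlt, c1, fun h => absurd h hodd⟩

end Pool.Agent.H559.FL
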