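import Pool.Agent.H559.IX.StmM

set_option autoImplicit false

/-! # Floors: the statements -/

open Finset MeasureTheory ProbabilityTheory Filter Topology
open Pool.Agent.T2H32.BF (Model V V_pos V_anti V_ratio mertens)
open Pool.Agent.H559.IX

namespace Pool.Agent.H559.FL

/-- SYM. Three forms in short windows. PROOF (adapt IX/Sys.lean, `Sys.gen` with `k = 3`): `Pool.Agent.H559.US.main_ae c hc 3 2 (1 / 2)` gives `β₀`;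
`C` with `C β₀ ≥ 3`, `N = Λ ^ C`; system with the rows `(u, 1, 0)`, `(T - m u, -m, 0)`, `(u ^ 2 - 2, 2 u, 1)` (values `v`, `T - m v`, `v ^ 2 - 2` at `v = u + r`).
The coefficients are at most `exp (Λ ^ 3)` in absolute value. `NC` for the primes `p > log N = C log Λ ≥ log Λ ≥ m`: `p` does not divide `m`.
`FD` for every prime `p`: if `p = 2` take `v` odd (`v ^ 2 - 2` is odd; if `m` is even then `T` is odd by coprimality, if `m` is odd then `T` is even, so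
`T - m v` is odd). If `p` is odd take `v ≡ 1` or `v ≡ 2 (mod p)`: `v ^ 2 - 2 ≡ -1` or `2`, not `0`; `T - m` and `T - 2 m` are not both divisible by `p`, otherwise
`p` divides `m` and `T`, against `Nat.Coprime T m`. -/
def S_sym : Prop := ∀ c : ℝ, 1 < c → ∃ C : ℕ, 1 ≤ C ∧ ∀ z : ℕ → ℕ, Lim z → ∀ (Ω : Type) [MeasurableSpace Ω] (P : Measure Ω)
  (a : ℕ → Ω → ℕ), Model P a → ∀ᵐ ω ∂P, ∀ᶠ Λ : ℕ in atTop, ∀ u m T : ℕ, (u : ℝ) ≤ Real.exp ((Λ : ℝ) ^ 2) →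
    1 ≤ m → (m : ℝ) ≤ Real.log Λ → (T : ℝ) ≤ Real.exp ((Λ : ℝ) ^ 2) → Nat.Coprime T m → (Odd m → Even T) →
    m * (u + Λ ^ C) ≤ T →
      ∃ v ∈ R0 z c (fun q => a q ω), u < v ∧ v ≤ u + Λ ^ C ∧ T - m * v ∈ R0 z c (fun q => a q ω) ∧
        v ^ 2 - 2 ∈ R0 z c (fun q => a q ω)

open Classical in
/-- the parameters `(N, T, m)` -/
noncomputable def YY (A K Λ x : ℕ) : Finset (ℕ × ℕ × ℕ) :=
  if Λ ^ K ≤ x then ((range (x + 1)) ×ˢ (range (⌊Real.exp Λ⌋₊ + 1)) ×ˢ (range (Λ + 1))).filter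
    (fun y => x ^ 2 ≤ y.1 ^ 3 ∧ 2 * y.1 ≤ x ∧ y.2.2 * (y.1 + 3 * Λ ^ A) + x + Λ ^ A < y.2.1) else ∅

/-- the auxiliary windows -/
def GG (A Λ x : ℕ) (y : ℕ × ℕ × ℕ) : Finset ℕ :=
  (Icc y.1 (y.1 + 3 * Λ ^ A) ∪ (Icc y.1 (y.1 + 3 * Λ ^ A)).image (fun q => y.2.1 - y.2.2 * q)) ∪
    Icc (x + 1 - y.1 - 3 * Λ ^ A) (x + Λ ^ A + 1 - y.1)

/-- the relation -/
def GR (y : ℕ × ℕ × ℕ) (V : Finset ℕ) (J v : ℕ) : Prop :=
  y.1 + J + 1 ∈ V ∧ y.2.1 - y.2.2 * (y.1 + J + 1) ∈ V ∧ v + 1 - (y.1 + J + 1) ∈ V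

/-- HYP. The hypotheses of the window theorem (adapt `F0ec.hyp`). PROOF. `|Y| ≤ (x + 1) (exp Λ + 1) (Λ + 1) ≤ exp (4 Λ)`. Let `y = (N, T, m) ∈ Y`; `x ≥ Λ ^ K`, `K ≥ 3 A + 6`, and `N ^ 3 ≥ x ^ 2` gives
`N ≥ Λ ^ (2 A + 4)` and `2 N ≤ x`. `|G| ≤ 3 (4 Λ ^ A + 2) ≤ Λ ^ (3 A)`. The elements of the first and third set are `≤ x` and at least `min (N, x / 2 - 3 Λ ^ A) ≥ x ^ (1/4)`; those of the
second set are larger than `x + Λ ^ A` and at most `T ≤ exp Λ`. -/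
def S_hyp : Prop := ∀ A K κ : ℕ, 5 ≤ A → 3 * A + 6 ≤ K → ∀ᶠ Λ : ℕ in atTop, ∀ x : ℕ, Λ ^ κ ≤ x → (x : ℝ) ≤ Real.exp Λ →
  ((YY A K Λ x).card : ℝ) ≤ Real.exp ((4 : ℕ) * Λ) ∧ ∀ y ∈ YY A K Λ x, (GG A Λ x y).card ≤ Λ ^ (3 * A) ∧
    ∀ v ∈ GG A Λ x y, x ≤ v ^ 4 ∧ (v : ℝ) ≤ Real.exp ((Λ : ℝ) ^ 2) ∧ (v ≤ x ∨ x + Λ ^ A < v)

/-- Q1. PROOF (adapt IX/F0ec.lean, theorem `t_0ec`, with `e = 1`). `C0` from `S_sys`, `C1` from `S_sym`, `S_master c hc 4 (max C0 C1 + 1)` gives `A1`; `A ≥ A1` and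
`A ≥ C0 + C1 + 5`; `κ` from `S_master`; `K ≥ κ`, `K ≥ 3 A + 6`; `C = K + 1`. `ι = ℕ × ℕ × ℕ`, `y = (N, T, m)`, `Y = YY A K`, `G Λ x y = GG A Λ x y`, the relation is `GR` (it does not depend on the classes `b`),
the hypotheses are `S_hyp`. Apply it with `x = Λ ^ K`, `N = cn R x` (`S_elem`: `2 N ≤ x`, `x ^ 2 ≤ N ^ 3` for large `x`; the condition on `T` holds because
`T ≥ exp (Λ / 4)` is larger than any power of `Λ`). `Hex` at `u, j0`: `q` from `S_sym` at `N + j0` (`q ∈ R`, `T - m q ∈ R`, `N + j0 < q ≤ N + j0 + Λ ^ C1`), `j = q - N - 1`; `q` is odd by the third part of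
`S_elem` (`q > N` is large), so `H = q - 1` is even; `v'` from `S_sys` (first part) at `u - (q - 1)` with this `H`: `v', v' + H ∈ R`, `v = v' + H`, `v + 1 - q = v'`. `Suc` gives `v ∈ R`, and `cn R v = N + J + 1 = q`
(`F0ec.cn_add`), `q ≤ x + Λ ^ A + 1 ≤ Λ ^ C`. -/
def S_q1 : Prop := ∀ c : ℝ, 1 < c → ∃ C : ℕ, ∀ z : ℕ → ℕ, Lim z → ∀ (Ω : Type) [MeasurableSpace Ω] (P : Measure Ω)
  (a : ℕ → Ω → ℕ), Model P a → ∀ᵐ ω ∂P, ∀ᶠ Λ : ℕ in atTop, ∀ m T : ℕ, 1 ≤ m → (m : ℝ) ≤ Real.log Λ →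
    Real.exp ((Λ : ℝ) / 4) ≤ T → (T : ℝ) ≤ Real.exp Λ → Nat.Coprime T m → (Odd m → Even T) →
      ∃ q v : ℕ, q ∈ R0 z c (fun q => a q ω) ∧ q ≤ Λ ^ C ∧ m * q < T ∧ T - m * q ∈ R0 z c (fun q => a q ω) ∧
        v ∈ R0 z c (fun q => a q ω) ∧ cn (R0 z c (fun q => a q ω)) v = q ∧ q ≤ v ∧ v + 1 - q ∈ R0 z c (fun q => a q ω)

/-- R. The choice of the remainder. PROOF. If `m` is even take `r = (n - 1) % m`, so `n - r ≡ 1 (mod m)`. Let `m` be odd. `m = 1`: `r = 0`. `m = 3`: `r ∈ {0, 1, 2}` by the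
residue of `n` modulo `6`. `m ≥ 5`: let `r1 = (n - 1) % m`. If `n - r1` is even take `r = r1`. Otherwise, if `r1 ≥ 1` take `r = r1 - 1` (`n - r ≡ 2 (mod m)`, even); if `r1 = 0` then `n` is odd
and `n ≡ 1 (mod m)`: take `r = 3` (`n - r ≡ -2 (mod m)`, even). -/
def S_rr : Prop := ∀ m n : ℕ, 1 ≤ m → 2 * m + 1 < n → (m = 1 → Even n) → (m = 3 → n % 6 ≠ 1) →
  ∃ r : ℕ, r < m ∧ Nat.Coprime (n - r) m ∧ (Odd m → Even (n - r))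

end Pool.Agent.H559.FL
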