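import Pool.Agent.H559.FL.Stm
import Pool.Agent.H559.US.Main
import Pool.Agent.H559.IX.Sys

set_option autoImplicit false

/-! # Three forms in short windows -/

open Finset MeasureTheory ProbabilityTheory Filter Topology
open Pool.Agent.T2H32.BF (Model V V_pos V_anti V_ratio mertens)
open Pool.Agent.H559.BS (Limit)
open Pool.Agent.H559.HY (Arr evl RS WW box mem_box)
open Pool.Agent.H559.US (FD NC val Mc)
open Pool.Agent.H559.IX

namespace Pool.Agent.H559.FL

namespace Sym

open Pool.Agent.H559.IX.Sys (R0_eq shift ndvd_one)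

/-- the system `X + u`, `T - m (X + u)`, `(X + u) ^ 2 - 2` -/
def s3 (u T m : ℤ) : Arr 3 2 := ![![u, 1, 0], ![T - m * u, -m, 0], ![u ^ 2 - 2, 2 * u, 1]]

theorem evl0 (u T m : ℤ) (r : ℕ) : evl (s3 u T m 0) r = u + r := by
  unfold evl s3
  rw [Fin.sum_univ_three]
  simp

theorem evl1 (u T m : ℤ) (r : ℕ) : evl (s3 u T m 1) r = T - m * (u + r) := by
  unfold evl s3
  rw [Fin.sum_univ_three]
  simp
  ring

theorem evl2 (u T m : ℤ) (r : ℕ) : evl (s3 u T m 2) r = (u + r) ^ 2 - 2 := by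
  unfold evl s3
  rw [Fin.sum_univ_three]
  simp
  ring

theorem fd (u m T : ℕ) (hcop : Nat.Coprime T m) (hpar : Odd m → Even T) (p : ℕ) (hp : p.Prime) :
    FD (s3 u T m) p := by
  have hp1 := ndvd_one p hp
  have key : ∃ s : ℕ, ¬ (p : ℤ) ∣ (s : ℤ) ∧ ¬ (p : ℤ) ∣ (T : ℤ) - m * s ∧
      ¬ (p : ℤ) ∣ (s : ℤ) ^ 2 - 2 := by
    by_cases h2 : p = 2
    · subst h2
      refine ⟨1, by simpa using hp1, ?_, ?_⟩
      · intro h
        have h3 : (2 : ℤ) ∣ (T : ℤ) - m := by simpa using h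
        rcases Nat.even_or_odd m with hm | hm
        · obtain ⟨t, ht⟩ := hm
          have hT : ¬ 2 ∣ T := by
            intro h4
            have h5 : 2 ∣ m := ⟨t, by omega⟩
            have h6 : 2 ∣ Nat.gcd T m := Nat.dvd_gcd h4 h5
            rw [hcop] at h6
            omega
          omega
        · obtain ⟨t, ht⟩ := hpar hm
          obtain ⟨w, hw⟩ := hm
          omega
      · intro h
        obtain ⟨t, ht⟩ := h
        push_cast at ht
        omega
    · have hnd2 : ¬ (p : ℤ) ∣ 2 := by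
        intro h
        have h3 : p ∣ 2 := by exact_mod_cast h
        exact h2 ((Nat.prime_dvd_prime_iff_eq hp Nat.prime_two).mp h3)
      by_cases h1 : (p : ℤ) ∣ (T : ℤ) - m
      · refine ⟨2, by exact_mod_cast hnd2, ?_, ?_⟩
        · intro h
          have h3 : (p : ℤ) ∣ (m : ℤ) := by
            have h4 := dvd_sub h1 h
            have e : ((T : ℤ) - m) - ((T : ℤ) - m * ((2 : ℕ) : ℤ)) = m := by push_cast; ring
            rwa [e] at h4
          have h5 : (p : ℤ) ∣ (T : ℤ) := by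
            have h6 := dvd_add h1 h3
            rwa [sub_add_cancel] at h6
          have h7 : p ∣ m := by exact_mod_cast h3
          have h8 : p ∣ T := by exact_mod_cast h5
          have h9 : p ∣ Nat.gcd T m := Nat.dvd_gcd h8 h7
          rw [hcop] at h9
          exact hp.one_lt.ne' (Nat.dvd_one.mp h9)
        · intro h
          apply hnd2
          have e : (((2 : ℕ) : ℤ) ^ 2 - 2) = 2 := by norm_num
          rwa [e] at h
      · refine ⟨1, by simpa using hp1, by simpa using h1, ?_⟩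
        intro h
        have e : (((1 : ℕ) : ℤ) ^ 2 - 2) = -1 := by norm_num
        rw [e] at h
        exact hp1 ((dvd_neg).mp h)
  obtain ⟨s, hs0, hs1, hs2⟩ := key
  obtain ⟨r, hr⟩ := shift p u s hp.pos
  refine ⟨r, fun i => ?_⟩
  fin_cases i
  · show ¬ (p : ℤ) ∣ evl (s3 u T m 0) r
    rw [evl0, hr]
    intro h
    exact hs0 ((dvd_add_left (Dvd.intro _ rfl)).mp h)
  · show ¬ (p : ℤ) ∣ evl (s3 u T m 1) r
    rw [evl1, hr]
    have e : (T : ℤ) - m * (s + p * u) = (T - m * s) + p * (-(m * u)) := by ring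
    rw [e]
    intro h
    exact hs1 ((dvd_add_left (Dvd.intro _ rfl)).mp h)
  · show ¬ (p : ℤ) ∣ evl (s3 u T m 2) r
    rw [evl2, hr]
    have e : ((s : ℤ) + p * u) ^ 2 - 2 = (s ^ 2 - 2) + p * (u * (2 * s + p * u)) := by ring
    rw [e]
    intro h
    exact hs2 ((dvd_add_left (Dvd.intro _ rfl)).mp h)

theorem size {L E : ℝ} (hL3 : 3 ≤ L) (hE : E = Real.exp (L ^ 2)) :
    3 * E ^ 2 ≤ Real.exp (L ^ 3) ∧ 1 ≤ E ∧ L ≤ E := by
  have hE1 : 1 ≤ E := by rw [hE]; exact Real.one_le_exp (by positivity)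
  refine ⟨?_, hE1, ?_⟩
  · have h1 : (3 : ℝ) ≤ Real.exp 2 := by
      have := Real.add_one_le_exp (2 : ℝ)
      linarith
    have h2 : E ^ 2 = Real.exp (2 * L ^ 2) := by
      rw [hE, ← Real.exp_nat_mul]
      norm_num
    calc 3 * E ^ 2 ≤ Real.exp 2 * Real.exp (2 * L ^ 2) := by
          rw [h2]
          exact mul_le_mul_of_nonneg_right h1 (Real.exp_pos _).le
      _ = Real.exp (2 + 2 * L ^ 2) := (Real.exp_add _ _).symm
      _ ≤ Real.exp (L ^ 3) := by
          apply Real.exp_le_exp.mpr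
          nlinarith [sq_nonneg L, mul_nonneg (sq_nonneg L) (by linarith : (0 : ℝ) ≤ L - 3)]
  · have := Real.add_one_le_exp (L ^ 2)
    rw [hE]
    nlinarith

end Sym

open Pool.Agent.H559.FL.Sym
open Pool.Agent.H559.IX.Sys (R0_eq shift ndvd_one)

open Classical in
theorem t_sym : S_sym := by
  intro c hc
  obtain ⟨β₀, hβ0, hmain⟩ := Pool.Agent.H559.US.main_ae c hc 3 2 (1 / 2) (by norm_num)
  obtain ⟨C, hC⟩ := exists_nat_ge (3 / β₀)
  have hCβ : 3 ≤ (C : ℝ) * β₀ := by
    rw [div_le_iff₀ hβ0] at hC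
    exact hC
  have hC1 : 1 ≤ C := by
    rcases Nat.eq_zero_or_pos C with h | h
    · rw [h] at hCβ
      norm_num at hCβ
    · exact h
  refine ⟨C, hC1, fun z hz Ω _ P a hmod => ?_⟩
  filter_upwards [hmain z hz Ω P a hmod] with ω hω
  have ht : Tendsto (fun Λ : ℕ => Λ ^ C) atTop atTop := tendsto_pow_atTop (by omega)
  filter_upwards [ht.eventually hω, eventually_ge_atTop 3] with Λ hΛ hΛ3 u m T hu hm1 hm hT hcop hpar
    hmT
  have hL3 : (3 : ℝ) ≤ Λ := by exact_mod_cast hΛ3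
  have hL1 : (1 : ℝ) ≤ Λ := by linarith
  have hL0 : (0 : ℝ) < Λ := by linarith
  set E : ℝ := Real.exp ((Λ : ℝ) ^ 2) with hE
  obtain ⟨hE2, hE1, hLE⟩ := size hL3 hE
  have hexp : Real.exp ((Λ : ℝ) ^ 3) ≤ Real.exp (((Λ ^ C : ℕ) : ℝ) ^ β₀) := by
    apply Real.exp_le_exp.mpr
    push_cast
    rw [← Real.rpow_natCast (Λ : ℝ) C, ← Real.rpow_mul hL0.le, ← Real.rpow_natCast (Λ : ℝ) 3]
    apply Real.rpow_le_rpow_of_exponent_le hL1
    exact_mod_cast hCβ
  have hbd : ∀ t : ℤ, (|t| : ℝ) ≤ 3 * E ^ 2 → |t| ≤ (Mc β₀ (Λ ^ C) : ℤ) := by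
    intro t ht
    have h1 : t.natAbs ≤ Mc β₀ (Λ ^ C) := by
      unfold Mc
      apply Nat.le_floor
      refine le_trans ?_ hexp
      refine le_trans ?_ hE2
      refine le_trans (le_of_eq ?_) ht
      rw [Nat.cast_natAbs]
      push_cast
      rfl
    rw [← Int.natCast_natAbs]
    exact_mod_cast h1
  have hEE : E ≤ E ^ 2 := by nlinarith
  have hE20 : 0 ≤ E ^ 2 := sq_nonneg _
  have hu0 : (0 : ℝ) ≤ u := Nat.cast_nonneg u
  have hT0 : (0 : ℝ) ≤ T := Nat.cast_nonneg T
  have hm0 : (0 : ℝ) ≤ m := Nat.cast_nonneg m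
  have hmL : (m : ℝ) ≤ Λ := hm.trans (by
    have := Real.log_le_sub_one_of_pos hL0
    linarith)
  have hmu : m * u ≤ T := le_trans (Nat.mul_le_mul_left _ (Nat.le_add_right _ _)) hmT
  have hmuR : (m : ℝ) * u ≤ T := by exact_mod_cast hmu
  have hmu0 : (0 : ℝ) ≤ (m : ℝ) * u := mul_nonneg hm0 hu0
  have hbox : s3 u T m ∈ box 3 2 (Mc β₀ (Λ ^ C)) := by
    rw [mem_box]
    intro i j
    have b00 := hbd u (by
      push_cast
      rw [abs_of_nonneg hu0]
      linarith)
    have b01 := hbd 1 (by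
      push_cast
      rw [abs_one]
      linarith)
    have b02 := hbd 0 (by
      push_cast
      rw [abs_zero]
      linarith)
    have b10 := hbd ((T : ℤ) - m * u) (by
      push_cast
      rw [abs_of_nonneg (by linarith)]
      linarith)
    have b11 := hbd (-(m : ℤ)) (by
      push_cast
      rw [abs_neg, abs_of_nonneg hm0]
      linarith)
    have b20 := hbd ((u : ℤ) ^ 2 - 2) (by
      push_cast
      have h1 : (u : ℝ) ^ 2 ≤ E ^ 2 := pow_le_pow_left₀ hu0 hu 2
      have h2 : 0 ≤ (u : ℝ) ^ 2 := sq_nonneg _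
      rw [abs_le]
      constructor
      · linarith
      · linarith)
    have b21 := hbd (2 * (u : ℤ)) (by
      push_cast
      rw [abs_of_nonneg (by linarith)]
      linarith)
    fin_cases i <;> fin_cases j
    · exact b00
    · exact b01
    · exact b02
    · exact b10
    · exact b11
    · exact b02
    · exact b20
    · exact b21
    · exact b01
  have hNC : ∀ p : ℕ, p.Prime → Real.log ((Λ ^ C : ℕ) : ℝ) < p → NC (s3 u T m) p := by
    intro p hp hlt i
    have hp1 := ndvd_one p hp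
    fin_cases i
    · exact ⟨1, by decide, hp1⟩
    · refine ⟨1, by decide, ?_⟩
      show ¬ (p : ℤ) ∣ -(m : ℤ)
      intro h
      have h1 : p ∣ m := by
        have h2 := (dvd_neg).mp h
        exact_mod_cast h2
      have h3 : p ≤ m := Nat.le_of_dvd (by omega) h1
      have h4 : (p : ℝ) ≤ m := by exact_mod_cast h3
      have h5 : Real.log ((Λ ^ C : ℕ) : ℝ) = C * Real.log Λ := by
        push_cast
        rw [Real.log_pow]
      have h6 : 0 ≤ Real.log (Λ : ℝ) := Real.log_nonneg hL1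
      have h7 : (1 : ℝ) ≤ C := by exact_mod_cast hC1
      rw [h5] at hlt
      nlinarith
    · exact ⟨2, by decide, hp1⟩
  have h := hΛ (s3 u T m) hbox (fun p hp => fd u m T hcop hpar p hp) hNC
  have hNpos : 0 < ((Λ ^ C : ℕ) : ℝ) ^ ((1 : ℝ) - 1 / 2) := by
    apply Real.rpow_pos_of_pos
    push_cast
    positivity
  have hcard := lt_of_lt_of_le hNpos h
  have hcard' := Nat.cast_pos.mp hcard
  obtain ⟨r, hr⟩ := card_pos.mp hcard'
  rw [mem_filter, mem_Ioc] at hr
  obtain ⟨⟨hr0, hr1⟩, hval⟩ := hr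
  have hr1' : r ≤ Λ ^ C := by simpa using hr1
  have hv : u + r ∈ R0 z c (fun q => a q ω) := by
    have h0 := hval 0
    unfold Pool.Agent.H559.US.val at h0
    rw [evl0] at h0
    rw [R0_eq]
    have e : ((u : ℤ) + (r : ℤ)).natAbs = u + r := by
      have : (u : ℤ) + (r : ℤ) = ((u + r : ℕ) : ℤ) := by push_cast; rfl
      rw [this, Int.natAbs_natCast]
    rw [e] at h0
    exact h0
  refine ⟨u + r, hv, by omega, by omega, ?_, ?_⟩
  · have h0 := hval 1
    unfold Pool.Agent.H559.US.val at h0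
    rw [evl1] at h0
    rw [R0_eq]
    have e : ((T : ℤ) - m * ((u : ℤ) + (r : ℤ))).natAbs = T - m * (u + r) := by
      have h9 : m * (u + r) ≤ T := le_trans (Nat.mul_le_mul_left _ (by omega)) hmT
      have : (T : ℤ) - m * ((u : ℤ) + (r : ℤ)) = ((T - m * (u + r) : ℕ) : ℤ) := by
        rw [Nat.cast_sub h9]
        push_cast
        ring
      rw [this, Int.natAbs_natCast]
    rw [e] at h0
    exact h0
  · have hv3 : 3 ≤ u + r := by
      unfold R0 at hv
      exact hv.1
    have h0 := hval 2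
    unfold Pool.Agent.H559.US.val at h0
    rw [evl2] at h0
    rw [R0_eq]
    have e : (((u : ℤ) + (r : ℤ)) ^ 2 - 2).natAbs = (u + r) ^ 2 - 2 := by
      have h9 : 2 ≤ (u + r) ^ 2 := by nlinarith
      have : ((u : ℤ) + (r : ℤ)) ^ 2 - 2 = (((u + r) ^ 2 - 2 : ℕ) : ℤ) := by
        rw [Nat.cast_sub h9]
        push_cast
        ring
      rw [this, Int.natAbs_natCast]
    rw [e] at h0
    exact h0

end Pool.Agent.H559.FL
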